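import Mathlib

/-!
# Uniform averages over finite product spaces

Tools for `MP_c2536d_co`: independence, second and fourth moments.
-/

set_option autoImplicit false

namespace Pool.Agent.R21.OA

/-- uniform average -/
noncomputable def E {α : Type} [Fintype α] (f : α → ℝ) : ℝ := (∑ x, f x) / Fintype.card α

section basic

variable {α β : Type} [Fintype α] [Fintype β]

theorem E_add (f g : α → ℝ) : E (fun x => f x + g x) = E f + E g := by
  unfold E
  rw [Finset.sum_add_distrib, add_div]

theorem E_sub (f g : α → ℝ) : E (fun x => f x - g x) = E f - E g := by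
  unfold E
  rw [Finset.sum_sub_distrib, sub_div]

theorem E_neg (f : α → ℝ) : E (fun x => - f x) = - E f := by
  unfold E
  rw [Finset.sum_neg_distrib, neg_div]

theorem E_mul_left (c : ℝ) (f : α → ℝ) : E (fun x => c * f x) = c * E f := by
  unfold E
  rw [← Finset.mul_sum, mul_div_assoc]

theorem E_mul_right (c : ℝ) (f : α → ℝ) : E (fun x => f x * c) = E f * c := by
  unfold E
  rw [← Finset.sum_mul, div_mul_eq_mul_div]

theorem E_const [Nonempty α] (c : ℝ) : E (fun _ : α => c) = c := by
  unfold E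
  rw [Finset.sum_const, Finset.card_univ, nsmul_eq_mul]
  have : (Fintype.card α : ℝ) ≠ 0 := by exact_mod_cast Fintype.card_ne_zero
  field_simp

theorem E_mono {f g : α → ℝ} (h : ∀ x, f x ≤ g x) : E f ≤ E g := by
  unfold E
  exact div_le_div_of_nonneg_right (Finset.sum_le_sum fun x _ => h x) (Nat.cast_nonneg _)

theorem E_nonneg {f : α → ℝ} (h : ∀ x, 0 ≤ f x) : 0 ≤ E f := by
  unfold E
  exact div_nonneg (Finset.sum_nonneg fun x _ => h x) (Nat.cast_nonneg _)

theorem E_sum {ι : Type} (s : Finset ι) (f : ι → α → ℝ) :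
    E (fun x => ∑ i ∈ s, f i x) = ∑ i ∈ s, E (f i) := by
  unfold E
  rw [Finset.sum_comm, Finset.sum_div]

theorem E_equiv (e : α ≃ β) (f : β → ℝ) : E (fun x => f (e x)) = E f := by
  unfold E
  rw [Fintype.card_congr e]
  congr 1
  exact Equiv.sum_comp e f

theorem E_prod (f : α × β → ℝ) : E f = E (fun a => E (fun b => f (a, b))) := by
  unfold E
  rw [Fintype.sum_prod_type, Fintype.card_prod, ← Finset.sum_div, div_div, Nat.cast_mul, mul_comm
    (Fintype.card β : ℝ)]

theorem E_fst [Nonempty β] (f : α → ℝ) : E (fun z : α × β => f z.1) = E f := by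
  rw [E_prod]
  simp only [E_const]

theorem E_mul_prod (f : α → ℝ) (g : β → ℝ) : E (fun z : α × β => f z.1 * g z.2) = E f * E g := by
  rw [E_prod]
  simp only [E_mul_left, E_mul_right]

theorem E_swap (f : α → β → ℝ) :
    E (fun a => E (fun b => f a b)) = E (fun b => E (fun a => f a b)) := by
  unfold E
  simp only [← Finset.sum_div]
  rw [Finset.sum_comm, div_right_comm]

end basic

/-- the sign of a Boolean -/
def sg (b : Bool) : ℝ := if b then 1 else -1

theorem sg_sq (b : Bool) : sg b ^ 2 = 1 := by cases b <;> simp [sg]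

theorem sg_not (b : Bool) : sg (!b) = - sg b := by cases b <;> simp [sg]

section product

variable {J : Type} [Fintype J] [DecidableEq J] {Ω : J → Type} [∀ j, Fintype (Ω j)]
  [∀ j, Nonempty (Ω j)]

/-- the coordinates of `x` where `r` is true, of `y` elsewhere -/
def mix (r : J → Bool) (x y : ∀ j, Ω j) : ∀ j, Ω j := fun j => if r j then x j else y j

/-- the exchange of coordinates -/
def mixEquiv (r : J → Bool) : ((∀ j, Ω j) × (∀ j, Ω j)) ≃ ((∀ j, Ω j) × (∀ j, Ω j)) where
  toFun z := (mix r z.1 z.2, mix r z.2 z.1)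
  invFun z := (mix r z.1 z.2, mix r z.2 z.1)
  left_inv z := by
    ext j
    · simp only [mix]
      split_ifs <;> rfl
    · simp only [mix]
      split_ifs <;> rfl
  right_inv z := by
    ext j
    · simp only [mix]
      split_ifs <;> rfl
    · simp only [mix]
      split_ifs <;> rfl

theorem E_mix (r : J → Bool) (Φ : (∀ j, Ω j) → ℝ) :
    E (fun z : (∀ j, Ω j) × (∀ j, Ω j) => Φ (mix r z.1 z.2)) = E Φ := by
  have h := E_equiv (mixEquiv (Ω := Ω) r) (fun z => Φ z.1)
  rw [E_fst] at h
  exact h

/-- functions of disjoint sets of coordinates are independent -/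
theorem indep (r : J → Bool) (A B : (∀ j, Ω j) → ℝ)
    (hA : ∀ x y, (∀ j, r j = true → x j = y j) → A x = A y)
    (hB : ∀ x y, (∀ j, r j = false → x j = y j) → B x = B y) :
    E (fun x => A x * B x) = E A * E B := by
  rw [← E_mix r (fun x => A x * B x), ← E_mul_prod]
  congr 1
  funext z
  rw [hA (mix r z.1 z.2) z.1, hB (mix r z.1 z.2) z.2]
  · intro j hj
    simp [mix, hj]
  · intro j hj
    simp [mix, hj]

theorem indep_pair {i j : J} (hij : i ≠ j) (a : Ω i → ℝ) (b : Ω j → ℝ) :
    E (fun x : (∀ j, Ω j) => a (x i) * b (x j)) =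
      E (fun x : (∀ j, Ω j) => a (x i)) * E (fun x : (∀ j, Ω j) => b (x j)) := by
  apply indep (fun k => decide (k = i))
  · intro x y h
    rw [h i (by simp)]
  · intro x y h
    rw [h j (by simpa using hij.symm)]

/-- the second moment of a sum of independent variables of mean zero -/
theorem second_moment (s : Finset J) (w : ∀ j, Ω j → ℝ)
    (h0 : ∀ j ∈ s, E (fun x : (∀ j, Ω j) => w j (x j)) = 0) :
    E (fun x : (∀ j, Ω j) => (∑ j ∈ s, w j (x j)) ^ 2) =
      ∑ j ∈ s, E (fun x : (∀ j, Ω j) => w j (x j) ^ 2) := by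
  have h1 : ∀ x : (∀ j, Ω j), (∑ j ∈ s, w j (x j)) ^ 2 =
      ∑ i ∈ s, ∑ j ∈ s, w i (x i) * w j (x j) := by
    intro x
    rw [sq, Finset.sum_mul_sum]
  simp only [h1]
  rw [E_sum]
  apply Finset.sum_congr rfl
  intro i hi
  rw [E_sum, Finset.sum_eq_single i]
  · simp only [sq]
  · intro j _ hji
    rw [indep_pair hji.symm, h0 i hi, zero_mul]
  · intro h
    exact absurd hi h

end product

section cube

variable {J : Type} [Fintype J] [DecidableEq J]

/-- exclusive or with `A` -/
def xorEquiv (A : J → Bool) : (J → Bool) ≃ (J → Bool) where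
  toFun r := fun j => xor (r j) (A j)
  invFun r := fun j => xor (r j) (A j)
  left_inv r := by
    funext j
    simp
  right_inv r := by
    funext j
    simp

theorem sg_xor (a b : Bool) : sg (xor a b) = if b then - sg a else sg a := by
  cases a <;> cases b <;> simp [sg]

/-- a function which changes its sign when one coordinate is flipped has mean zero -/
theorem flip_zero (j : J) (g : (J → Bool) → ℝ)
    (h : ∀ r, g (xorEquiv (fun k => decide (k = j)) r) = - g r) : E g = 0 := by
  have h1 := E_equiv (xorEquiv (fun k => decide (k = j))) g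
  simp only [h] at h1
  rw [E_neg] at h1
  linarith

omit [Fintype J] in
theorem flip_apply (j : J) (r : J → Bool) (k : J) :
    sg (xorEquiv (fun k => decide (k = j)) r k) = if k = j then - sg (r k) else sg (r k) := by
  show sg (xor (r k) (decide (k = j))) = _
  rw [sg_xor]
  simp

theorem sum_flip (s : Finset J) {j : J} (hj : j ∉ s) (a : J → ℝ) (r : J → Bool) :
    ∑ k ∈ s, sg (xorEquiv (fun k => decide (k = j)) r k) * a k = ∑ k ∈ s, sg (r k) * a k := by
  apply Finset.sum_congr rfl
  intro k hk
  rw [flip_apply, if_neg]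
  rintro rfl
  exact hj hk

theorem rad2 (s : Finset J) (a : J → ℝ) :
    E (fun r : J → Bool => (∑ j ∈ s, sg (r j) * a j) ^ 2) = ∑ j ∈ s, a j ^ 2 := by
  have h := second_moment (Ω := fun _ : J => Bool) s (fun j b => sg b * a j) (by
    intro j _
    apply flip_zero j
    intro r
    rw [flip_apply, if_pos rfl]
    ring)
  rw [h]
  apply Finset.sum_congr rfl
  intro j _
  simp only [mul_pow, sg_sq, one_mul]
  exact E_const _

theorem rad4 (s : Finset J) (a : J → ℝ) :
    E (fun r : J → Bool => (∑ j ∈ s, sg (r j) * a j) ^ 4) ≤ 3 * (∑ j ∈ s, a j ^ 2) ^ 2 := by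
  induction s using Finset.induction_on with
  | empty => simp [E_const]
  | insert j s hj ih =>
    have h1 : ∀ r : J → Bool, (∑ k ∈ insert j s, sg (r k) * a k) ^ 4 =
        (∑ k ∈ s, sg (r k) * a k) ^ 4 + 6 * a j ^ 2 * (∑ k ∈ s, sg (r k) * a k) ^ 2 + a j ^ 4 +
        ((∑ k ∈ s, sg (r k) * a k) ^ 3 * sg (r j) * (4 * a j) +
          (∑ k ∈ s, sg (r k) * a k) * sg (r j) * (4 * a j ^ 3)) := by
      intro r
      rw [Finset.sum_insert hj]
      have h2 := sg_sq (r j)
      generalize (∑ k ∈ s, sg (r k) * a k) = S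
      generalize sg (r j) = t at h2
      have h3 : t ^ 3 = t := by
        have : t ^ 3 = t ^ 2 * t := by ring
        rw [this, h2, one_mul]
      have h4 : t ^ 4 = 1 := by
        have : t ^ 4 = (t ^ 2) ^ 2 := by ring
        rw [this, h2, one_pow]
      linear_combination (6 * S ^ 2 * a j ^ 2) * h2 + (4 * S * a j ^ 3) * h3 + a j ^ 4 * h4
    simp only [h1]
    rw [E_add, E_add, E_add, E_add, E_mul_left, E_const, E_mul_right, E_mul_right]
    rw [flip_zero j (fun r => (∑ k ∈ s, sg (r k) * a k) ^ 3 * sg (r j)) (by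
      intro r
      rw [sum_flip s hj, flip_apply, if_pos rfl]
      ring)]
    rw [flip_zero j (fun r => (∑ k ∈ s, sg (r k) * a k) * sg (r j)) (by
      intro r
      rw [sum_flip s hj, flip_apply, if_pos rfl]
      ring)]
    rw [rad2, Finset.sum_insert hj]
    have h5 : 0 ≤ ∑ k ∈ s, a k ^ 2 := Finset.sum_nonneg fun k _ => sq_nonneg _
    have h6 : 0 ≤ a j ^ 4 := by positivity
    nlinarith [ih]

/-- splitting of weights -/
theorem split [Nonempty J] (w : J → ℝ) (hw : ∀ j, 0 ≤ w j) (M : ℝ)
    (h : ∀ A : J → Bool, (∑ j, if A j then w j else 0) * (∑ j, if A j then 0 else w j) ≤ M) :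
    ∃ k, (∑ j, w j) * ((∑ j, w j) - w k) ≤ 4 * M := by
  obtain ⟨k, -, hk⟩ := Finset.exists_max_image Finset.univ w Finset.univ_nonempty
  refine ⟨k, ?_⟩
  have h1 : ∀ A : J → Bool, (∑ j, w j) ^ 2 - (∑ j, sg (A j) * w j) ^ 2 ≤ 4 * M := by
    intro A
    have e1 : (∑ j, if A j then w j else 0) = ((∑ j, w j) + ∑ j, sg (A j) * w j) / 2 := by
      rw [← Finset.sum_add_distrib, Finset.sum_div]
      apply Finset.sum_congr rfl
      intro j _
      cases A j <;> simp [sg]
    have e2 : (∑ j, if A j then 0 else w j) = ((∑ j, w j) - ∑ j, sg (A j) * w j) / 2 := by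
      rw [← Finset.sum_sub_distrib, Finset.sum_div]
      apply Finset.sum_congr rfl
      intro j _
      cases A j <;> simp [sg]
    have h2 := h A
    rw [e1, e2] at h2
    nlinarith [h2]
  have h2 := E_mono h1
  rw [E_const, E_sub, E_const, rad2] at h2
  have h3 : ∑ j, w j ^ 2 ≤ w k * ∑ j, w j := by
    rw [Finset.mul_sum]
    apply Finset.sum_le_sum
    intro j hj
    rw [sq]
    exact mul_le_mul_of_nonneg_right (hk j hj) (hw j)
  nlinarith [h2, h3]

end cube

end Pool.Agent.R21.OA
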