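import Pool.Agent.R21.OA.Main

/-!
# The case of a mean in `(1/10, 1/2]`
-/

set_option autoImplicit false
set_option linter.unusedSectionVars false

namespace Pool.Agent.R21.OA

open scoped Classical

variable {J : Type} [Fintype J] [DecidableEq J] {Ω : J → Type} [∀ j, Fintype (Ω j)]
  [∀ j, Nonempty (Ω j)]

theorem E_snd {α β : Type} [Fintype α] [Fintype β] [Nonempty α] (f : β → ℝ) :
    E (fun z : α × β => f z.2) = E f := by
  rw [E_prod]
  exact E_const (α := α) (E f)

/-- pairs of points as points of the product of the squares -/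
def pairEquiv : (∀ j, Ω j × Ω j) ≃ ((∀ j, Ω j) × (∀ j, Ω j)) where
  toFun w := (fun j => (w j).1, fun j => (w j).2)
  invFun z := fun j => (z.1 j, z.2 j)
  left_inv _ := rfl
  right_inv _ := rfl

/-- the variance of the conditional expectation -/
noncomputable def V (F : (∀ j, Ω j) → ℝ) (j : J) : ℝ := E (fun x : (∀ j, Ω j) => G F j (x j) ^ 2)

theorem V_nonneg (F : (∀ j, Ω j) → ℝ) (j : J) : 0 ≤ V F j := E_nonneg fun _ => sq_nonneg _

theorem E_dif_sq (F : (∀ j, Ω j) → ℝ) (j : J) :
    E (fun z : (∀ j, Ω j) × (∀ j, Ω j) => dif F z j ^ 2) = 2 * V F j := by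
  have h1 : ∀ z : (∀ j, Ω j) × (∀ j, Ω j), dif F z j ^ 2 =
      G F j (z.1 j) ^ 2 + G F j (z.2 j) ^ 2 - 2 * (G F j (z.1 j) * G F j (z.2 j)) := by
    intro z
    unfold dif G
    ring
  simp only [h1]
  rw [E_sub, E_add, E_mul_left, E_fst (fun x : (∀ j, Ω j) => G F j (x j) ^ 2),
    E_snd (fun x : (∀ j, Ω j) => G F j (x j) ^ 2),
    E_mul_prod (fun x : (∀ j, Ω j) => G F j (x j)) (fun x : (∀ j, Ω j) => G F j (x j)), E_G]
  unfold V
  ring

theorem V_split [Nonempty J] (F : (∀ j, Ω j) → ℝ) (hF : ∀ x, F x = 0 ∨ F x = 1) (A : J → Bool) :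
    (∑ j, if A j then 2 * V F j else 0) * (∑ j, if A j then 0 else 2 * V F j) ≤
      ((∑ j, 2 * V F j) + 2) * (192 * del F) := by
  have h0 := F_nonneg hF
  have h1 := F_le_one hF
  have hE : ∀ j, E (fun w : (∀ j, Ω j × Ω j) => (cond F j (w j).1 - cond F j (w j).2) ^ 2) =
      2 * V F j := by
    intro j
    rw [← E_dif_sq]
    exact E_equiv (pairEquiv (Ω := Ω)) (fun z => dif F z j ^ 2)
  have h2 := prod_le (Ω := fun j => Ω j × Ω j) (fun j a => (cond F j a.1 - cond F j a.2) ^ 2)
    (fun j a => sq_nonneg _) (fun j a => by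
      have a1 := cond_nonneg h0 j a.1
      have a2 := cond_nonneg h0 j a.2
      have a3 := cond_le_one h1 j a.1
      have a4 := cond_le_one h1 j a.2
      rw [sq_le_one_iff_abs_le_one, abs_le]
      constructor <;> linarith) A (192 * del F) (by
      have h3 := min_le hF A
      rw [← E_equiv (pairEquiv (Ω := Ω))] at h3
      exact h3)
  simp only [hE] at h2
  exact h2

theorem mean_var [Nonempty J] (F : (∀ j, Ω j) → ℝ) (hF : ∀ x, F x = 0 ∨ F x = 1) :
    E F * (1 - E F) ≤ 2 * del F + ∑ j, 2 * V F j := by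
  have h1 : ∀ x, (F x - E F) ^ 2 ≤ 2 * (F x - F0 F x) ^ 2 + 2 * (∑ j, G F j (x j)) ^ 2 := by
    intro x
    have e : F x - E F = (F x - F0 F x) + ∑ j, G F j (x j) := by
      unfold F0
      ring
    rw [e]
    nlinarith [sq_nonneg ((F x - F0 F x) - ∑ j, G F j (x j))]
  have h2 := E_mono h1
  rw [E_add, E_mul_left, E_mul_left, second_moment Finset.univ (fun j => G F j) fun j _ => E_G F j]
    at h2
  have h3 : ∀ x, (F x - E F) ^ 2 = F x - (2 * E F) * F x + E F ^ 2 := by
    intro x
    rcases hF x with h | h <;> rw [h] <;> ring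
  have h4 : E (fun x => (F x - E F) ^ 2) = E F - 2 * E F * E F + E F ^ 2 := by
    simp only [h3]
    rw [E_add, E_sub, E_mul_left, E_const]
  rw [h4] at h2
  have h5 : 2 * ∑ j, E (fun x : (∀ j, Ω j) => G F j (x j) ^ 2) = ∑ j, 2 * V F j := by
    rw [Finset.mul_sum]
    rfl
  rw [h5] at h2
  have h6 : E (fun x => (F x - F0 F x) ^ 2) = del F := rfl
  rw [h6] at h2
  linarith

/-- `OR` of the `h j` as a real number -/
noncomputable def orR (h : ∀ j, Ω j → Bool) (x : ∀ j, Ω j) : ℝ :=
  if ∃ j, h j (x j) = true then 1 else 0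

theorem caseA [Nonempty J] (F : (∀ j, Ω j) → ℝ) (hF : ∀ x, F x = 0 ∨ F x = 1)
    (hp : 1 / 10 < E F) (hp2 : E F ≤ 1 / 2) :
    ∃ h : ∀ j, Ω j → Bool, E (fun x => (F x - orR h x) ^ 2) ≤ 80000 * del F := by
  have hδ := del_nonneg F
  by_cases hsmall : 1 / 10000 < del F
  · refine ⟨fun _ _ => false, ?_⟩
    have h1 : ∀ x, (F x - orR (fun (j : J) (_ : Ω j) => false) x) ^ 2 = F x := by
      intro x
      have : orR (fun (j : J) (_ : Ω j) => false) x = 0 := by simp [orR]
      rw [this]
      rcases hF x with h | h <;> rw [h] <;> norm_num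
    simp only [h1]
    have : E (fun x => F x) = E F := rfl
    rw [this]
    linarith
  · rw [not_lt] at hsmall
    obtain ⟨k, hk⟩ := split (fun j => 2 * V F j) (fun j => by have := V_nonneg F j; positivity)
      (((∑ j, 2 * V F j) + 2) * (192 * del F)) (V_split F hF)
    have hmv := mean_var F hF
    have hs : 8 / 100 ≤ ∑ j, 2 * V F j := by nlinarith
    set s := ∑ j, 2 * V F j with hsdef
    have hrest : s - 2 * V F k ≤ 19968 * del F := by
      have h1 : s * (s - 2 * V F k) ≤ s * (19968 * del F) := by nlinarith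
      exact le_of_mul_le_mul_left h1 (by linarith)
    refine ⟨fun j a => decide (j = k ∧ 1 / 2 ≤ cond F j a), ?_⟩
    have h1 : ∀ x, (F x - orR (fun j a => decide (j = k ∧ 1 / 2 ≤ cond F j a)) x) ^ 2 ≤
        8 * (F x - F0 F x) ^ 2 + 8 * (∑ j ∈ Finset.univ.erase k, G F j (x j)) ^ 2 := by
      intro x
      have e1 : (∃ j, decide (j = k ∧ 1 / 2 ≤ cond F j (x j)) = true) ↔
          1 / 2 ≤ cond F k (x k) := by
        constructor
        · rintro ⟨j, hj⟩
          obtain ⟨rfl, hj2⟩ := of_decide_eq_true hj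
          exact hj2
        · intro h
          exact ⟨k, decide_eq_true ⟨rfl, h⟩⟩
      have e2 : cond F k (x k) = F0 F x - ∑ j ∈ Finset.univ.erase k, G F j (x j) := by
        unfold F0
        rw [← Finset.add_sum_erase _ _ (Finset.mem_univ k)]
        unfold G
        ring
      have h2 : (F x - orR (fun j a => decide (j = k ∧ 1 / 2 ≤ cond F j a)) x) ^ 2 ≤
          4 * (F x - cond F k (x k)) ^ 2 := by
        unfold orR
        by_cases hc : 1 / 2 ≤ cond F k (x k)
        · rw [if_pos (e1.2 hc)]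
          rcases hF x with h | h <;> rw [h]
          · nlinarith
          · nlinarith [sq_nonneg (1 - cond F k (x k))]
        · rw [if_neg (fun h => hc (e1.1 h))]
          rw [not_le] at hc
          rcases hF x with h | h <;> rw [h]
          · nlinarith [sq_nonneg (cond F k (x k))]
          · nlinarith
      refine h2.trans ?_
      rw [e2]
      nlinarith [sq_nonneg ((F x - F0 F x) - ∑ j ∈ Finset.univ.erase k, G F j (x j))]
    have h2 := E_mono h1
    rw [E_add, E_mul_left, E_mul_left,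
      second_moment (Finset.univ.erase k) (fun j => G F j) fun j _ => E_G F j] at h2
    have h3 : ∑ j ∈ Finset.univ.erase k, E (fun x : (∀ j, Ω j) => G F j (x j) ^ 2) =
        (s - 2 * V F k) / 2 := by
      rw [hsdef, ← Finset.add_sum_erase _ _ (Finset.mem_univ k), ← Finset.mul_sum]
      unfold V
      ring
    rw [h3] at h2
    have h6 : E (fun x => (F x - F0 F x) ^ 2) = del F := rfl
    rw [h6] at h2
    linarith

end Pool.Agent.R21.OA
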