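import Pool.Agent.R21.OA.CaseA

/-!
# The case of a mean at most `1/10`
-/

set_option autoImplicit false
set_option linter.unusedSectionVars false

namespace Pool.Agent.R21.OA

open scoped Classical

variable {J : Type} [Fintype J] [DecidableEq J] {Ω : J → Type} [∀ j, Fintype (Ω j)]
  [∀ j, Nonempty (Ω j)]

/-- the indicator of a large conditional expectation -/
noncomputable def Hh (F : (∀ j, Ω j) → ℝ) (j : J) (a : Ω j) : ℝ := if 3 / 4 ≤ cond F j a then 1 else 0

theorem Hh_nonneg (F : (∀ j, Ω j) → ℝ) (j : J) (a : Ω j) : 0 ≤ Hh F j a := by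
  unfold Hh
  split_ifs <;> norm_num

theorem Hh_le_one (F : (∀ j, Ω j) → ℝ) (j : J) (a : Ω j) : Hh F j a ≤ 1 := by
  unfold Hh
  split_ifs <;> norm_num

/-- its mean -/
noncomputable def qq (F : (∀ j, Ω j) → ℝ) (j : J) : ℝ := E (fun x : (∀ j, Ω j) => Hh F j (x j))

theorem qq_nonneg (F : (∀ j, Ω j) → ℝ) (j : J) : 0 ≤ qq F j := E_nonneg fun _ => Hh_nonneg _ _ _

/-- the number of the large conditional expectations -/
noncomputable def mm (F : (∀ j, Ω j) → ℝ) (x : ∀ j, Ω j) : ℝ := ∑ j, Hh F j (x j)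

theorem markov [Nonempty J] (F : (∀ j, Ω j) → ℝ) (hF : ∀ x, F x = 0 ∨ F x = 1) (hp : E F ≤ 1 / 10)
    (j : J) : 6 / 10 ≤ E (fun x : (∀ j, Ω j) => if cond F j (x j) < 1 / 4 then (1 : ℝ) else 0) := by
  have h1 : ∀ x : (∀ j, Ω j), 1 - 4 * cond F j (x j) ≤
      if cond F j (x j) < 1 / 4 then (1 : ℝ) else 0 := by
    intro x
    have h0 := cond_nonneg (F_nonneg hF) j (x j)
    split_ifs with h <;> linarith
  have h2 := E_mono h1
  rw [E_sub, E_const, E_mul_left, E_cond] at h2
  linarith

theorem count_below [Nonempty J] (F : (∀ j, Ω j) → ℝ) (hF : ∀ x, F x = 0 ∨ F x = 1)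
    (hp : E F ≤ 1 / 10) (x : ∀ j, Ω j) : 36 / 100 * max (mm F x - 1) 0 ≤
    E (fun x' : (∀ j, Ω j) =>
      max ((∑ j, if 1 / 2 ≤ |dif F (x, x') j| then (1 : ℝ) else 0) - 1) 0) := by
  by_cases hm : mm F x ≤ 1
  · rw [max_eq_right (by linarith), mul_zero]
    exact E_nonneg fun _ => le_max_right _ _
  rw [not_le] at hm
  obtain ⟨k, hk⟩ : ∃ k, 3 / 4 ≤ cond F k (x k) := by
    by_contra hcon
    push Not at hcon
    have : mm F x = 0 := by
      unfold mm
      apply Finset.sum_eq_zero
      intro j _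
      unfold Hh
      rw [if_neg (not_le.2 (hcon j))]
    linarith
  have hHk : Hh F k (x k) = 1 := by
    unfold Hh
    rw [if_pos hk]
  have hmx : mm F x - 1 = ∑ j ∈ Finset.univ.erase k, Hh F j (x j) := by
    unfold mm
    rw [← Finset.add_sum_erase _ _ (Finset.mem_univ k), hHk]
    ring
  set b : ∀ j, Ω j → ℝ := fun j a => if cond F j a < 1 / 4 then (1 : ℝ) else 0 with hb
  have hlow : ∀ x' : (∀ j, Ω j), ∑ j ∈ Finset.univ.erase k,
      Hh F j (x j) * (b k (x' k) * b j (x' j)) ≤
      max ((∑ j, if 1 / 2 ≤ |dif F (x, x') j| then (1 : ℝ) else 0) - 1) 0 := by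
    intro x'
    have key : ∀ j, 3 / 4 ≤ cond F j (x j) → cond F j (x' j) < 1 / 4 →
        1 / 2 ≤ |dif F (x, x') j| := by
      intro j h1 h2
      unfold dif
      have := le_abs_self (cond F j (x j) - cond F j (x' j))
      dsimp only
      linarith
    by_cases hbk : cond F k (x' k) < 1 / 4
    · apply le_max_of_le_left
      rw [← Finset.add_sum_erase _ _ (Finset.mem_univ k), if_pos (key k hk hbk), add_sub_cancel_left]
      apply Finset.sum_le_sum
      intro j _
      simp only [hb]
      rw [if_pos hbk, one_mul]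
      unfold Hh
      by_cases h1 : 3 / 4 ≤ cond F j (x j)
      · by_cases h2 : cond F j (x' j) < 1 / 4
        · rw [if_pos h1, if_pos h2, if_pos (key j h1 h2)]
          norm_num
        · rw [if_neg h2, mul_zero]
          split_ifs <;> norm_num
      · rw [if_neg h1, zero_mul]
        split_ifs <;> norm_num
    · apply le_max_of_le_right
      apply le_of_eq
      apply Finset.sum_eq_zero
      intro j _
      simp only [hb]
      rw [if_neg hbk, zero_mul, mul_zero]
  refine le_trans ?_ (E_mono hlow)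
  rw [max_eq_left (by linarith), hmx, E_sum, Finset.mul_sum]
  apply Finset.sum_le_sum
  intro j hj
  rw [E_mul_left, indep_pair (Finset.ne_of_mem_erase hj).symm]
  have h1 := markov F hF hp k
  have h2 := markov F hF hp j
  change 6 / 10 ≤ E (fun x : (∀ j, Ω j) => b k (x k)) at h1
  change 6 / 10 ≤ E (fun x : (∀ j, Ω j) => b j (x j)) at h2
  have h3 := Hh_nonneg F j (x j)
  have h4 : 36 / 100 ≤ E (fun x : (∀ j, Ω j) => b k (x k)) * E (fun x : (∀ j, Ω j) => b j (x j)) := by
    nlinarith
  nlinarith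

theorem excess [Nonempty J] (F : (∀ j, Ω j) → ℝ) (hF : ∀ x, F x = 0 ∨ F x = 1)
    (hp : E F ≤ 1 / 10) : E (fun x => max (mm F x - 1) 0) ≤ 2134 * del F := by
  have h1 := count_le hF
  rw [E_prod] at h1
  have h2 := E_mono (count_below F hF hp)
  rw [E_mul_left] at h2
  have hδ := del_nonneg F
  linarith

theorem sum_q [Nonempty J] (F : (∀ j, Ω j) → ℝ) (hF : ∀ x, F x = 0 ∨ F x = 1)
    (hp : E F ≤ 1 / 10) (hδ : 2134 * del F ≤ 1 / 20) : ∑ j, qq F j ≤ 1 / 5 := by
  have h1 : ∀ j, 3 / 4 * qq F j ≤ E (fun x : (∀ j, Ω j) => F x * Hh F j (x j)) := by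
    intro j
    rw [← cond_spec]
    unfold qq
    rw [← E_mul_left]
    apply E_mono
    intro x
    unfold Hh
    split_ifs with h <;> linarith
  have h2 := Finset.sum_le_sum fun j (_ : j ∈ Finset.univ) => h1 j
  rw [← Finset.mul_sum, ← E_sum] at h2
  have h3 : ∀ x, ∑ j, F x * Hh F j (x j) ≤ F x + max (mm F x - 1) 0 := by
    intro x
    rw [← Finset.mul_sum]
    change F x * mm F x ≤ _
    have a1 := le_max_left (mm F x - 1) 0
    have a2 := le_max_right (mm F x - 1) 0
    rcases hF x with h | h <;> rw [h] <;> linarith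
  have h4 := E_mono h3
  rw [E_add] at h4
  have h5 := excess F hF hp
  have h6 : E (fun x => F x) = E F := rfl
  rw [h6] at h4
  linarith

/-- the conditional mean of `G` given that `Hh` vanishes -/
noncomputable def mu (F : (∀ j, Ω j) → ℝ) (j : J) : ℝ :=
  E (fun x : (∀ j, Ω j) => G F j (x j) * (1 - Hh F j (x j))) / (1 - qq F j)

/-- the noise -/
noncomputable def W (F : (∀ j, Ω j) → ℝ) (j : J) (a : Ω j) : ℝ := (G F j a - mu F j) * (1 - Hh F j a)

theorem E_B (F : (∀ j, Ω j) → ℝ) (j : J) :
    E (fun x : (∀ j, Ω j) => 1 - Hh F j (x j)) = 1 - qq F j := by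
  rw [E_sub, E_const]
  rfl

theorem E_W (F : (∀ j, Ω j) → ℝ) (j : J) (hq : qq F j < 1) :
    E (fun x : (∀ j, Ω j) => W F j (x j)) = 0 := by
  have h1 : ∀ x : (∀ j, Ω j), W F j (x j) = G F j (x j) * (1 - Hh F j (x j)) -
      mu F j * (1 - Hh F j (x j)) := by
    intro x
    unfold W
    ring
  simp only [h1]
  rw [E_sub, E_mul_left, E_B]
  unfold mu
  rw [div_mul_cancel₀ _ (by linarith), sub_self]

theorem HH (F : (∀ j, Ω j) → ℝ) (j : J) (a : Ω j) : (1 - Hh F j a) ^ 2 = 1 - Hh F j a := by
  unfold Hh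
  split_ifs <;> norm_num

theorem E_W_sq [Nonempty J] (F : (∀ j, Ω j) → ℝ) (hF : ∀ x, F x = 0 ∨ F x = 1) (j : J)
    (hq : qq F j ≤ 1 / 5) : E (fun x : (∀ j, Ω j) => W F j (x j) ^ 2) ≤
      6 * E (fun z : (∀ j, Ω j) × (∀ j, Ω j) => phi (dif F z j)) := by
  have h1 : ∀ z : (∀ j, Ω j) × (∀ j, Ω j),
      W F j (z.1 j) ^ 2 * (1 - Hh F j (z.2 j)) + (1 - Hh F j (z.1 j)) * W F j (z.2 j) ^ 2 -
        2 * (W F j (z.1 j) * W F j (z.2 j)) ≤ 9 * phi (dif F z j) := by
    intro z
    have a1 := HH F j (z.1 j)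
    have a2 := HH F j (z.2 j)
    have e1 : W F j (z.1 j) ^ 2 * (1 - Hh F j (z.2 j)) + (1 - Hh F j (z.1 j)) * W F j (z.2 j) ^ 2 -
        2 * (W F j (z.1 j) * W F j (z.2 j)) =
        (dif F z j * ((1 - Hh F j (z.1 j)) * (1 - Hh F j (z.2 j)))) ^ 2 := by
      have e2 : dif F z j = (G F j (z.1 j) - mu F j) - (G F j (z.2 j) - mu F j) := by
        unfold dif G
        ring
      rw [e2]
      unfold W
      generalize G F j (z.1 j) - mu F j = g1
      generalize G F j (z.2 j) - mu F j = g2
      generalize 1 - Hh F j (z.1 j) = b1 at *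
      generalize 1 - Hh F j (z.2 j) = b2 at *
      have e3 : (g1 * b1) ^ 2 * b2 = g1 ^ 2 * b1 * b2 := by
        rw [mul_pow, a1]
      have e4 : b1 * (g2 * b2) ^ 2 = g2 ^ 2 * b1 * b2 := by
        rw [mul_pow, a2]
        ring
      have e5 : ((g1 - g2) * (b1 * b2)) ^ 2 = (g1 - g2) ^ 2 * (b1 * b2) := by
        rw [mul_pow, mul_pow, a1, a2]
      rw [e3, e4, e5]
      ring
    rw [e1]
    have p0 := phi_nonneg (dif F z j)
    by_cases h2 : 3 / 4 ≤ cond F j (z.1 j)
    · have : Hh F j (z.1 j) = 1 := by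
        unfold Hh
        rw [if_pos h2]
      rw [this]
      simp
      exact p0
    by_cases h3 : 3 / 4 ≤ cond F j (z.2 j)
    · have : Hh F j (z.2 j) = 1 := by
        unfold Hh
        rw [if_pos h3]
      rw [this]
      simp
      exact p0
    have e6 : Hh F j (z.1 j) = 0 := by
      unfold Hh
      rw [if_neg h2]
    have e7 : Hh F j (z.2 j) = 0 := by
      unfold Hh
      rw [if_neg h3]
    rw [e6, e7]
    rw [not_le] at h2 h3
    have c1 := cond_nonneg (F_nonneg hF) j (z.1 j)
    have c2 := cond_nonneg (F_nonneg hF) j (z.2 j)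
    have hab : |dif F z j| ≤ 3 / 4 := by
      unfold dif
      rw [abs_le]
      constructor <;> linarith
    unfold phi
    have h4 : (dif F z j * ((1 - 0) * (1 - 0))) ^ 2 = |dif F z j| ^ 2 := by
      rw [sq_abs]
      ring
    rw [h4]
    have h5 := abs_nonneg (dif F z j)
    rcases le_total |dif F z j| (1 - |dif F z j|) with h6 | h6
    · rw [min_eq_left h6]
      nlinarith
    · rw [min_eq_right h6]
      nlinarith
  have h2 := E_mono h1
  rw [E_sub, E_add, E_mul_left, E_mul_left,
    E_mul_prod (fun x : (∀ j, Ω j) => W F j (x j) ^ 2) (fun x : (∀ j, Ω j) => 1 - Hh F j (x j)),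
    E_mul_prod (fun x : (∀ j, Ω j) => 1 - Hh F j (x j)) (fun x : (∀ j, Ω j) => W F j (x j) ^ 2),
    E_mul_prod (fun x : (∀ j, Ω j) => W F j (x j)) (fun x : (∀ j, Ω j) => W F j (x j)),
    E_W F j (by linarith), E_B] at h2
  have h3 : 0 ≤ E (fun x : (∀ j, Ω j) => W F j (x j) ^ 2) := E_nonneg fun _ => sq_nonneg _
  have h4 : 0 ≤ E (fun z : (∀ j, Ω j) × (∀ j, Ω j) => phi (dif F z j)) :=
    E_nonneg fun _ => phi_nonneg _
  nlinarith

theorem mu_bounds [Nonempty J] (F : (∀ j, Ω j) → ℝ) (hF : ∀ x, F x = 0 ∨ F x = 1)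
    (hp : E F ≤ 1 / 10) (j : J) (hq : qq F j ≤ 1 / 5) :
    mu F j ≤ 0 ∧ -(5 / 4 * qq F j) ≤ mu F j := by
  have h1 : E (fun x : (∀ j, Ω j) => G F j (x j) * (1 - Hh F j (x j))) =
      - E (fun x : (∀ j, Ω j) => G F j (x j) * Hh F j (x j)) := by
    have e : ∀ x : (∀ j, Ω j), G F j (x j) * (1 - Hh F j (x j)) =
        G F j (x j) - G F j (x j) * Hh F j (x j) := fun x => by ring
    simp only [e]
    rw [E_sub, E_G, zero_sub]
  have hp0 : 0 ≤ E F := E_nonneg (F_nonneg hF)
  have h2 : 0 ≤ E (fun x : (∀ j, Ω j) => G F j (x j) * Hh F j (x j)) := by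
    apply E_nonneg
    intro x
    unfold Hh
    split_ifs with h
    · unfold G
      linarith
    · rw [mul_zero]
  have h3 : E (fun x : (∀ j, Ω j) => G F j (x j) * Hh F j (x j)) ≤ qq F j := by
    apply E_mono
    intro x
    have h4 := cond_le_one (F_le_one hF) j (x j)
    unfold Hh
    split_ifs with h
    · unfold G
      linarith
    · rw [mul_zero]
  have hq0 := qq_nonneg F j
  have h5 : 0 < 1 - qq F j := by linarith
  unfold mu
  rw [h1]
  constructor
  · apply div_nonpos_of_nonpos_of_nonneg _ h5.le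
    linarith
  · rw [le_div_iff₀ h5]
    nlinarith

theorem caseB [Nonempty J] (F : (∀ j, Ω j) → ℝ) (hF : ∀ x, F x = 0 ∨ F x = 1)
    (hp : E F ≤ 1 / 10) :
    ∃ h : ∀ j, Ω j → Bool, E (fun x => (F x - orR h x) ^ 2) ≤ 80000 * del F := by
  have hδ := del_nonneg F
  by_cases hsmall : 1 / 20 < 2134 * del F
  · refine ⟨fun _ _ => false, ?_⟩
    have h1 : ∀ x, (F x - orR (fun (j : J) (_ : Ω j) => false) x) ^ 2 = F x := by
      intro x
      have : orR (fun (j : J) (_ : Ω j) => false) x = 0 := by simp [orR]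
      rw [this]
      rcases hF x with h | h <;> rw [h] <;> norm_num
    simp only [h1]
    have : E (fun x => F x) = E F := rfl
    rw [this]
    linarith
  · rw [not_lt] at hsmall
    have hQ := sum_q F hF hp hsmall
    have hq : ∀ j, qq F j ≤ 1 / 5 := fun j =>
      (Finset.single_le_sum (fun i _ => qq_nonneg F i) (Finset.mem_univ j)).trans hQ
    have hp0 : 0 ≤ E F := E_nonneg (F_nonneg hF)
    set κ := E F + ∑ j, mu F j with hκ
    have hκ1 : κ ≤ 1 / 10 := by
      have : ∑ j, mu F j ≤ 0 := Finset.sum_nonpos fun j _ => (mu_bounds F hF hp j (hq j)).1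
      linarith
    have hκ2 : -1 / 4 ≤ κ := by
      have h1 := Finset.sum_le_sum fun j (_ : j ∈ Finset.univ) => (mu_bounds F hF hp j (hq j)).2
      rw [Finset.sum_neg_distrib, ← Finset.mul_sum] at h1
      linarith
    have hdec : ∀ x, F0 F x = κ + ∑ j, W F j (x j) + ∑ j, Hh F j (x j) * (G F j (x j) - mu F j) := by
      intro x
      unfold F0
      rw [hκ, add_assoc, add_assoc, ← Finset.sum_add_distrib, ← Finset.sum_add_distrib]
      congr 1
      apply Finset.sum_congr rfl
      intro j _
      unfold W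
      ring
    refine ⟨fun j a => decide (3 / 4 ≤ cond F j a), ?_⟩
    have hpt : ∀ x, (F x - orR (fun j a => decide (3 / 4 ≤ cond F j a)) x) ^ 2 ≤
        25 * (∑ j, W F j (x j)) ^ 2 + 25 * (F x - F0 F x) ^ 2 + max (mm F x - 1) 0 := by
      intro x
      have hd := hdec x
      set nz := ∑ j, W F j (x j) with hnz
      have hmax := le_max_right (mm F x - 1) 0
      by_cases hex : ∃ j, 3 / 4 ≤ cond F j (x j)
      · have e1 : orR (fun j a => decide (3 / 4 ≤ cond F j a)) x = 1 := by
          unfold orR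
          rw [if_pos]
          obtain ⟨j, hj⟩ := hex
          exact ⟨j, decide_eq_true hj⟩
        rw [e1]
        obtain ⟨k, hk⟩ := hex
        have hHk : Hh F k (x k) = 1 := by
          unfold Hh
          rw [if_pos hk]
        rcases hF x with h | h
        · by_cases hex2 : ∃ j, j ≠ k ∧ 3 / 4 ≤ cond F j (x j)
          · obtain ⟨j, hjk, hj⟩ := hex2
            have hHj : Hh F j (x j) = 1 := by
              unfold Hh
              rw [if_pos hj]
            have h2 : 2 ≤ mm F x := by
              unfold mm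
              rw [← Finset.add_sum_erase _ _ (Finset.mem_univ k), hHk]
              have := Finset.single_le_sum (f := fun i => Hh F i (x i))
                (fun i _ => Hh_nonneg F i (x i)) (Finset.mem_erase.2 ⟨hjk, Finset.mem_univ j⟩)
              rw [hHj] at this
              linarith
            have h3 := le_max_left (mm F x - 1) 0
            rw [h]
            nlinarith [sq_nonneg nz, sq_nonneg (0 - F0 F x)]
          · push Not at hex2
            have h3 : ∑ j, Hh F j (x j) * (G F j (x j) - mu F j) = G F k (x k) - mu F k := by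
              rw [Finset.sum_eq_single k]
              · rw [hHk, one_mul]
              · intro j _ hjk
                have : Hh F j (x j) = 0 := by
                  unfold Hh
                  rw [if_neg (not_le.2 (hex2 j hjk))]
                rw [this, zero_mul]
              · intro h
                exact absurd (Finset.mem_univ k) h
            rw [h3] at hd
            have h4 := (mu_bounds F hF hp k (hq k)).1
            have h5 : 65 / 100 ≤ G F k (x k) := by
              unfold G
              linarith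
            have h6 : 4 / 10 + nz ≤ F0 F x := by
              rw [hd]
              linarith
            rw [h]
            nlinarith [sq_nonneg (nz + F0 F x), sq_nonneg (F0 F x - nz)]
        · rw [h]
          nlinarith [sq_nonneg nz, sq_nonneg (1 - F0 F x)]
      · have e1 : orR (fun j a => decide (3 / 4 ≤ cond F j a)) x = 0 := by
          unfold orR
          rw [if_neg]
          rintro ⟨j, hj⟩
          exact hex ⟨j, of_decide_eq_true hj⟩
        rw [e1]
        push Not at hex
        have h3 : ∑ j, Hh F j (x j) * (G F j (x j) - mu F j) = 0 := by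
          apply Finset.sum_eq_zero
          intro j _
          have : Hh F j (x j) = 0 := by
            unfold Hh
            rw [if_neg (not_le.2 (hex j))]
          rw [this, zero_mul]
        rw [h3] at hd
        rcases hF x with h | h
        · rw [h]
          nlinarith [sq_nonneg nz, sq_nonneg (0 - F0 F x)]
        · rw [h]
          have h6 : 9 / 10 ≤ nz + (1 - F0 F x) := by linarith
          nlinarith [sq_nonneg (nz - (1 - F0 F x))]
    have h1 := E_mono hpt
    rw [E_add, E_add, E_mul_left, E_mul_left,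
      second_moment Finset.univ (fun j => W F j) fun j _ => E_W F j (by have := hq j; linarith)]
      at h1
    have h2 := Finset.sum_le_sum fun j (_ : j ∈ Finset.univ) => E_W_sq F hF j (hq j)
    rw [← Finset.mul_sum] at h2
    have h3 := sum_phi hF
    have h4 := excess F hF hp
    have h5 : E (fun x => (F x - F0 F x) ^ 2) = del F := rfl
    rw [h5] at h1
    linarith

/-- **Theorem B** -/
theorem thmB [Nonempty J] (F : (∀ j, Ω j) → ℝ) (hF : ∀ x, F x = 0 ∨ F x = 1)
    (hp : E F ≤ 1 / 2) :
    ∃ h : ∀ j, Ω j → Bool, E (fun x => (F x - orR h x) ^ 2) ≤ 80000 * del F := by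
  by_cases h : 1 / 10 < E F
  · exact caseA F hF h hp
  · exact caseB F hF (not_lt.1 h)

end Pool.Agent.R21.OA
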