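import Pool.Agent.R21.OA.Basic

/-!
# Linear forms on the cube which are close to `{0, 1}`
-/

set_option autoImplicit false

namespace Pool.Agent.R21.OA

/-- the distance to `{0, 1}` -/
noncomputable def D (t : ℝ) : ℝ := min |t| |t - 1|

/-- the squared distance of `|y| ≤ 1` to `{0, 1}` -/
noncomputable def phi (y : ℝ) : ℝ := (min |y| (1 - |y|)) ^ 2

theorem D_nonneg (t : ℝ) : 0 ≤ D t := le_min (abs_nonneg _) (abs_nonneg _)

theorem D_cases (t : ℝ) : ∃ f e : ℝ, (f = 0 ∨ f = 1) ∧ t = f + e ∧ D t = |e| := by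
  unfold D
  rcases le_total |t| |t - 1| with h | h
  · exact ⟨0, t, Or.inl rfl, by ring, min_eq_left h⟩
  · exact ⟨1, t - 1, Or.inr rfl, by ring, min_eq_right h⟩

theorem D_le_zero (t : ℝ) : D t ≤ |t| := min_le_left _ _

theorem D_le_one (t : ℝ) : D t ≤ |t - 1| := min_le_right _ _

theorem phi_nonneg (y : ℝ) : 0 ≤ phi y := sq_nonneg _

theorem phi_le_sq {y : ℝ} (hy : |y| ≤ 1) : phi y ≤ y ^ 2 := by
  unfold phi
  rw [← sq_abs y]
  have h1 : 0 ≤ min |y| (1 - |y|) := le_min (abs_nonneg _) (by linarith)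
  exact pow_le_pow_left₀ h1 (min_le_left _ _) 2

/-- two values -/
theorem two_values {t t' : ℝ} (h : |t - t'| ≤ 1) :
    phi (t - t') ≤ 2 * (D t) ^ 2 + 2 * (D t') ^ 2 := by
  obtain ⟨f, e, hf, ht, hD⟩ := D_cases t
  obtain ⟨f', e', hf', ht', hD'⟩ := D_cases t'
  have h1 : min |t - t'| (1 - |t - t'|) ≤ D t + D t' := by
    rw [hD, hD']
    have a1 := neg_abs_le e
    have a2 := le_abs_self e
    have a3 := neg_abs_le e'
    have a4 := le_abs_self e'
    rcases hf with rfl | rfl <;> rcases hf' with rfl | rfl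
    · apply (min_le_left _ _).trans
      rw [abs_le]
      constructor <;> linarith
    · apply (min_le_right _ _).trans
      have := neg_abs_le (t - t')
      linarith
    · apply (min_le_right _ _).trans
      have := le_abs_self (t - t')
      linarith
    · apply (min_le_left _ _).trans
      rw [abs_le]
      constructor <;> linarith
  have h2 : 0 ≤ min |t - t'| (1 - |t - t'|) := le_min (abs_nonneg _) (by linarith)
  have h3 : phi (t - t') ≤ (D t + D t') ^ 2 := pow_le_pow_left₀ h2 h1 2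
  nlinarith [sq_nonneg (D t - D t')]

/-- four values -/
theorem four_values (c a b : ℝ) : min |a| |b| ≤
    D (c + (a + b) / 2) + D (c - (a + b) / 2) + D (c + (b - a) / 2) + D (c - (b - a) / 2) := by
  obtain ⟨f1, e1, hf1, ht1, hD1⟩ := D_cases (c + (a + b) / 2)
  obtain ⟨f2, e2, hf2, ht2, hD2⟩ := D_cases (c - (a + b) / 2)
  obtain ⟨f3, e3, hf3, ht3, hD3⟩ := D_cases (c + (b - a) / 2)
  obtain ⟨f4, e4, hf4, ht4, hD4⟩ := D_cases (c - (b - a) / 2)
  rw [hD1, hD2, hD3, hD4]
  have a1 := neg_abs_le e1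
  have a2 := le_abs_self e1
  have a3 := neg_abs_le e2
  have a4 := le_abs_self e2
  have a5 := neg_abs_le e3
  have a6 := le_abs_self e3
  have a7 := neg_abs_le e4
  have a8 := le_abs_self e4
  generalize |e1| = p1 at *
  generalize |e2| = p2 at *
  generalize |e3| = p3 at *
  generalize |e4| = p4 at *
  rcases le_total |a| |b| with hab | hab
  · rw [min_eq_left hab]
    rcases abs_cases a with ⟨h1, h2⟩ | ⟨h1, h2⟩ <;> rcases abs_cases b with ⟨h3, h4⟩ | ⟨h3, h4⟩ <;>
      rw [h1, h3] at hab <;> rw [h1] <;>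
      rcases hf1 with rfl | rfl <;> rcases hf2 with rfl | rfl <;> rcases hf3 with rfl | rfl <;>
      rcases hf4 with rfl | rfl <;> linarith
  · rw [min_eq_right hab]
    rcases abs_cases a with ⟨h1, h2⟩ | ⟨h1, h2⟩ <;> rcases abs_cases b with ⟨h3, h4⟩ | ⟨h3, h4⟩ <;>
      rw [h1, h3] at hab <;> rw [h3] <;>
      rcases hf1 with rfl | rfl <;> rcases hf2 with rfl | rfl <;> rcases hf3 with rfl | rfl <;>
      rcases hf4 with rfl | rfl <;> linarith

theorem min_lower {a b t : ℝ} (ha : 0 ≤ a) (hb : 0 ≤ b) (_ : 0 ≤ t) :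
    2 * t * (a * b) - t ^ 2 * (a * b * (a + b)) ≤ min a b := by
  rcases le_total a b with h | h
  · rw [min_eq_left h]
    have h1 : 0 ≤ a * ((1 - t * b) ^ 2 + t ^ 2 * (a * b)) := by positivity
    nlinarith [h1]
  · rw [min_eq_right h]
    have h1 : 0 ≤ b * ((1 - t * a) ^ 2 + t ^ 2 * (a * b)) := by positivity
    nlinarith [h1]

variable {J : Type} [Fintype J] [DecidableEq J]

/-- the mean squared distance to `{0, 1}` of the values of a linear form on the cube -/
noncomputable def eta (c : ℝ) (y : J → ℝ) : ℝ :=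
  E (fun r : J → Bool => D (c + (1 / 2) * ∑ j, sg (r j) * y j) ^ 2)

theorem eta_nonneg (c : ℝ) (y : J → ℝ) : 0 ≤ eta c y := E_nonneg fun _ => sq_nonneg _

/-- (a): every coefficient is close to `0` or to `± 1` -/
theorem cube_a (c : ℝ) (y : J → ℝ) (hy : ∀ j, |y j| ≤ 1) (j : J) : phi (y j) ≤ 4 * eta c y := by
  have h1 : ∀ r : J → Bool, phi (y j) ≤
      2 * D (c + (1 / 2) * ∑ j, sg (r j) * y j) ^ 2 +
      2 * D (c + (1 / 2) * ∑ k, sg (xorEquiv (fun k => decide (k = j)) r k) * y k) ^ 2 := by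
    intro r
    have h2 : (c + (1 / 2) * ∑ j, sg (r j) * y j) -
        (c + (1 / 2) * ∑ k, sg (xorEquiv (fun k => decide (k = j)) r k) * y k) = sg (r j) * y j := by
      rw [add_sub_add_left_eq_sub, ← mul_sub, ← Finset.sum_sub_distrib, Finset.sum_eq_single j]
      · rw [flip_apply, if_pos rfl]
        ring
      · intro k _ hk
        rw [flip_apply, if_neg hk, sub_self]
      · intro h
        exact absurd (Finset.mem_univ j) h
    have h3 : |sg (r j) * y j| = |y j| := by
      cases r j <;> simp [sg]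
    have h4 := two_values (t := c + (1 / 2) * ∑ j, sg (r j) * y j)
      (t' := c + (1 / 2) * ∑ k, sg (xorEquiv (fun k => decide (k = j)) r k) * y k) (by
        rw [h2, h3]
        exact hy j)
    rw [h2] at h4
    have h5 : phi (sg (r j) * y j) = phi (y j) := by
      unfold phi
      rw [h3]
    rw [h5] at h4
    exact h4
  have h2 := E_mono h1
  rw [E_const, E_add, E_mul_left, E_mul_left] at h2
  have h3 := E_equiv (xorEquiv (fun k => decide (k = j)))
    (fun r : J → Bool => D (c + (1 / 2) * ∑ k, sg (r k) * y k) ^ 2)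
  rw [h3] at h2
  unfold eta
  linarith

/-- the inequality for one partition of the coordinates -/
theorem cube_split (c : ℝ) (y : J → ℝ) (A : J → Bool) :
    (∑ j, if A j then y j ^ 2 else 0) * (∑ j, if A j then 0 else y j ^ 2) ≤
      48 * (∑ j, y j ^ 2) * eta c y := by
  set u : J → ℝ := fun j => if A j then y j else 0 with hu
  set v : J → ℝ := fun j => if A j then 0 else y j with hv
  set YA : (J → Bool) → ℝ := fun r => ∑ j, sg (r j) * u j with hYA
  set YB : (J → Bool) → ℝ := fun r => ∑ j, sg (r j) * v j with hYB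
  have eu : (∑ j, if A j then y j ^ 2 else 0) = ∑ j, u j ^ 2 := by
    apply Finset.sum_congr rfl
    intro j _
    simp only [hu]
    split_ifs <;> ring
  have ev : (∑ j, if A j then 0 else y j ^ 2) = ∑ j, v j ^ 2 := by
    apply Finset.sum_congr rfl
    intro j _
    simp only [hv]
    split_ifs <;> ring
  have eT : ∑ j, y j ^ 2 = ∑ j, u j ^ 2 + ∑ j, v j ^ 2 := by
    rw [← Finset.sum_add_distrib]
    apply Finset.sum_congr rfl
    intro j _
    simp only [hu, hv]
    split_ifs <;> ring
  rw [eu, ev, eT]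
  -- the four values
  set L : (J → Bool) → ℝ := fun r => D (c + (1 / 2) * ∑ j, sg (r j) * y j) ^ 2 with hL
  have l1 : ∀ r, L r = D (c + (YA r + YB r) / 2) ^ 2 := by
    intro r
    have : ∑ j, sg (r j) * y j = YA r + YB r := by
      simp only [hYA, hYB]
      rw [← Finset.sum_add_distrib]
      apply Finset.sum_congr rfl
      intro j _
      simp only [hu, hv]
      split_ifs <;> ring
    simp only [hL]
    rw [this]
    ring_nf
  have l2 : ∀ r, L (xorEquiv (fun _ => true) r) = D (c - (YA r + YB r) / 2) ^ 2 := by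
    intro r
    have : ∑ j, sg (xorEquiv (fun _ => true) r j) * y j = -(YA r + YB r) := by
      simp only [hYA, hYB]
      rw [← Finset.sum_add_distrib, ← Finset.sum_neg_distrib]
      apply Finset.sum_congr rfl
      intro j _
      have e : sg (xorEquiv (fun _ : J => true) r j) = - sg (r j) := by
        show sg (xor (r j) true) = _
        rw [sg_xor]
        simp
      simp only [hu, hv]
      rw [e]
      split_ifs <;> ring
    simp only [hL]
    rw [this]
    ring_nf
  have l3 : ∀ r, L (xorEquiv A r) = D (c + (YB r - YA r) / 2) ^ 2 := by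
    intro r
    have : ∑ j, sg (xorEquiv A r j) * y j = YB r - YA r := by
      simp only [hYA, hYB]
      rw [← Finset.sum_sub_distrib]
      apply Finset.sum_congr rfl
      intro j _
      have e : sg (xorEquiv A r j) = if A j then - sg (r j) else sg (r j) := sg_xor _ _
      simp only [hu, hv]
      rw [e]
      split_ifs <;> ring
    simp only [hL]
    rw [this]
    ring_nf
  have l4 : ∀ r, L (xorEquiv (fun j => !A j) r) = D (c - (YB r - YA r) / 2) ^ 2 := by
    intro r
    have : ∑ j, sg (xorEquiv (fun j => !A j) r j) * y j = -(YB r - YA r) := by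
      simp only [hYA, hYB]
      rw [← Finset.sum_sub_distrib, ← Finset.sum_neg_distrib]
      apply Finset.sum_congr rfl
      intro j _
      have e : sg (xorEquiv (fun j => !A j) r j) = if A j then sg (r j) else - sg (r j) := by
        show sg (xor (r j) (!A j)) = _
        rw [sg_xor]
        cases A j <;> simp
      simp only [hu, hv]
      rw [e]
      split_ifs <;> ring
    simp only [hL]
    rw [this]
    ring_nf
  have hup : ∀ r, min (YA r ^ 2) (YB r ^ 2) ≤ 4 * L r + 4 * L (xorEquiv (fun _ => true) r) +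
      4 * L (xorEquiv A r) + 4 * L (xorEquiv (fun j => !A j) r) := by
    intro r
    rw [l1, l2, l3, l4]
    have h1 := four_values c (YA r) (YB r)
    generalize D (c + (YA r + YB r) / 2) = d1 at *
    generalize D (c - (YA r + YB r) / 2) = d2 at *
    generalize D (c + (YB r - YA r) / 2) = d3 at *
    generalize D (c - (YB r - YA r) / 2) = d4 at *
    have h2 : 0 ≤ min |YA r| |YB r| := le_min (abs_nonneg _) (abs_nonneg _)
    have h3 : min (YA r ^ 2) (YB r ^ 2) ≤ (min |YA r| |YB r|) ^ 2 := by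
      rcases le_total |YA r| |YB r| with h | h
      · rw [min_eq_left h, sq_abs]
        exact min_le_left _ _
      · rw [min_eq_right h, sq_abs]
        exact min_le_right _ _
    have h4 : (min |YA r| |YB r|) ^ 2 ≤ (d1 + d2 + d3 + d4) ^ 2 := pow_le_pow_left₀ h2 h1 2
    nlinarith [sq_nonneg (d1 - d2), sq_nonneg (d1 - d3), sq_nonneg (d1 - d4), sq_nonneg (d2 - d3),
      sq_nonneg (d2 - d4), sq_nonneg (d3 - d4)]
  have hE1 : E (fun r => min (YA r ^ 2) (YB r ^ 2)) ≤ 16 * eta c y := by
    have h1 := E_mono hup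
    rw [E_add, E_add, E_add, E_mul_left, E_mul_left, E_mul_left, E_mul_left,
      E_equiv (xorEquiv (fun _ => true)) L, E_equiv (xorEquiv A) L,
      E_equiv (xorEquiv (fun j => !A j)) L] at h1
    have h2 : E L = eta c y := rfl
    rw [h2] at h1
    linarith
  -- moments
  have dA : ∀ x z : J → Bool, (∀ j, A j = true → x j = z j) → YA x = YA z := by
    intro x z h
    simp only [hYA]
    apply Finset.sum_congr rfl
    intro j _
    simp only [hu]
    by_cases hj : A j = true
    · rw [h j hj]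
    · rw [if_neg hj, mul_zero, mul_zero]
  have dB : ∀ x z : J → Bool, (∀ j, A j = false → x j = z j) → YB x = YB z := by
    intro x z h
    simp only [hYB]
    apply Finset.sum_congr rfl
    intro j _
    simp only [hv]
    by_cases hj : A j = true
    · rw [if_pos hj, mul_zero, mul_zero]
    · rw [h j (by simpa using hj)]
  have m22 : E (fun r => YA r ^ 2 * YB r ^ 2) = (∑ j, u j ^ 2) * (∑ j, v j ^ 2) := by
    rw [indep (Ω := fun _ : J => Bool) A (fun r => YA r ^ 2) (fun r => YB r ^ 2)
      (fun x z h => by rw [dA x z h]) (fun x z h => by rw [dB x z h])]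
    simp only [hYA, hYB]
    rw [rad2, rad2]
  have m42 : E (fun r => YA r ^ 4 * YB r ^ 2) ≤ 3 * (∑ j, u j ^ 2) ^ 2 * (∑ j, v j ^ 2) := by
    rw [indep (Ω := fun _ : J => Bool) A (fun r => YA r ^ 4) (fun r => YB r ^ 2)
      (fun x z h => by rw [dA x z h]) (fun x z h => by rw [dB x z h])]
    have e2 : E (fun r => YB r ^ 2) = ∑ j, v j ^ 2 := by
      simp only [hYB]
      exact rad2 _ _
    rw [e2]
    exact mul_le_mul_of_nonneg_right (rad4 _ _) (Finset.sum_nonneg fun _ _ => sq_nonneg _)
  have m24 : E (fun r => YA r ^ 2 * YB r ^ 4) ≤ 3 * (∑ j, u j ^ 2) * (∑ j, v j ^ 2) ^ 2 := by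
    rw [indep (Ω := fun _ : J => Bool) A (fun r => YA r ^ 2) (fun r => YB r ^ 4)
      (fun x z h => by rw [dA x z h]) (fun x z h => by rw [dB x z h])]
    have e2 : E (fun r => YA r ^ 2) = ∑ j, u j ^ 2 := by
      simp only [hYA]
      exact rad2 _ _
    rw [e2]
    have h1 := mul_le_mul_of_nonneg_left (rad4 Finset.univ v)
      (Finset.sum_nonneg fun j (_ : j ∈ Finset.univ) => sq_nonneg (u j))
    linarith
  have hu0 : 0 ≤ ∑ j, u j ^ 2 := Finset.sum_nonneg fun _ _ => sq_nonneg _
  have hv0 : 0 ≤ ∑ j, v j ^ 2 := Finset.sum_nonneg fun _ _ => sq_nonneg _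
  generalize (∑ j, u j ^ 2) = a at *
  generalize (∑ j, v j ^ 2) = b at *
  have heta := eta_nonneg c y
  rcases hu0.eq_or_lt with h0 | hpos
  · rw [← h0, zero_mul]
    positivity
  have hT : 0 < a + b := by linarith
  set t : ℝ := 1 / (3 * (a + b)) with ht
  have ht0 : 0 ≤ t := by positivity
  have htT : 3 * t * (a + b) = 1 := by
    rw [ht]
    field_simp
  have hlow : ∀ r, 2 * t * (YA r ^ 2 * YB r ^ 2) - t ^ 2 * (YA r ^ 4 * YB r ^ 2 +
      YA r ^ 2 * YB r ^ 4) ≤ min (YA r ^ 2) (YB r ^ 2) := by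
    intro r
    have h1 := min_lower (sq_nonneg (YA r)) (sq_nonneg (YB r)) ht0
    calc _ = 2 * t * (YA r ^ 2 * YB r ^ 2) - t ^ 2 *
          (YA r ^ 2 * YB r ^ 2 * (YA r ^ 2 + YB r ^ 2)) := by ring
      _ ≤ _ := h1
  have h2 := E_mono hlow
  rw [E_sub, E_mul_left, E_mul_left, E_add, m22] at h2
  have h3 : t ^ 2 * (E (fun r => YA r ^ 4 * YB r ^ 2) + E (fun r => YA r ^ 2 * YB r ^ 4)) ≤
      t ^ 2 * (3 * a ^ 2 * b + 3 * a * b ^ 2) :=
    mul_le_mul_of_nonneg_left (add_le_add m42 m24) (sq_nonneg t)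
  have h4 : 2 * t * (a * b) - t ^ 2 * (3 * a ^ 2 * b + 3 * a * b ^ 2) ≤ 16 * eta c y := by
    linarith
  have h5 : t ^ 2 * (3 * a ^ 2 * b + 3 * a * b ^ 2) = t * (a * b) := by
    calc t ^ 2 * (3 * a ^ 2 * b + 3 * a * b ^ 2) = (3 * t * (a + b)) * (t * (a * b)) := by ring
      _ = _ := by rw [htT, one_mul]
  rw [h5] at h4
  have h6 : t * (a * b) ≤ 16 * eta c y := by linarith
  have h7 : (3 * (a + b)) * (t * (a * b)) ≤ (3 * (a + b)) * (16 * eta c y) :=
    mul_le_mul_of_nonneg_left h6 (by positivity)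
  have h8 : (3 * (a + b)) * (t * (a * b)) = a * b := by
    calc (3 * (a + b)) * (t * (a * b)) = (3 * t * (a + b)) * (a * b) := by ring
      _ = _ := by rw [htT, one_mul]
  rw [h8] at h7
  linarith

/-- (b): all the coefficients but one are small -/
theorem cube_b [Nonempty J] (c : ℝ) (y : J → ℝ) :
    ∃ k, (∑ j, y j ^ 2) - y k ^ 2 ≤ 192 * eta c y := by
  obtain ⟨k, hk⟩ := split (fun j => y j ^ 2) (fun j => sq_nonneg _)
    (48 * (∑ j, y j ^ 2) * eta c y) (cube_split c y)
  refine ⟨k, ?_⟩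
  have h0 : 0 ≤ ∑ j, y j ^ 2 := Finset.sum_nonneg fun _ _ => sq_nonneg _
  have heta := eta_nonneg c y
  rcases h0.eq_or_lt with h | h
  · rw [← h]
    nlinarith [sq_nonneg (y k)]
  · have h1 : (∑ j, y j ^ 2) * ((∑ j, y j ^ 2) - y k ^ 2) ≤
        (∑ j, y j ^ 2) * (192 * eta c y) := by
      calc _ ≤ _ := hk
        _ = _ := by ring
    exact le_of_mul_le_mul_left h1 h

/-- (c): the sum of the squared distances of the coefficients -/
theorem cube_phi [Nonempty J] (c : ℝ) (y : J → ℝ) (hy : ∀ j, |y j| ≤ 1) :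
    ∑ j, phi (y j) ≤ 196 * eta c y := by
  obtain ⟨k, hk⟩ := cube_b c y
  have h1 := cube_a c y hy k
  rw [← Finset.add_sum_erase _ _ (Finset.mem_univ k)]
  rw [← Finset.add_sum_erase _ _ (Finset.mem_univ k)] at hk
  have h2 : ∑ j ∈ Finset.univ.erase k, phi (y j) ≤ ∑ j ∈ Finset.univ.erase k, y j ^ 2 :=
    Finset.sum_le_sum fun j _ => phi_le_sq (hy j)
  linarith

/-- (c): the number of the large coefficients -/
theorem cube_count [Nonempty J] (c : ℝ) (y : J → ℝ) :
    max ((∑ j, if 1 / 2 ≤ |y j| then (1 : ℝ) else 0) - 1) 0 ≤ 768 * eta c y := by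
  obtain ⟨k, hk⟩ := cube_b c y
  have heta := eta_nonneg c y
  apply max_le _ (by positivity)
  rw [← Finset.add_sum_erase _ _ (Finset.mem_univ k)]
  rw [← Finset.add_sum_erase _ _ (Finset.mem_univ k)] at hk
  have h1 : (if 1 / 2 ≤ |y k| then (1 : ℝ) else 0) ≤ 1 := by split_ifs <;> norm_num
  have h2 : ∑ j ∈ Finset.univ.erase k, (if 1 / 2 ≤ |y j| then (1 : ℝ) else 0) ≤
      ∑ j ∈ Finset.univ.erase k, 4 * y j ^ 2 := by
    apply Finset.sum_le_sum
    intro j _
    split_ifs with h
    · rw [← sq_abs (y j)]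
      nlinarith [abs_nonneg (y j)]
    · positivity
  rw [← Finset.mul_sum] at h2
  linarith

/-- (c): one side of every partition is small -/
theorem cube_min [Nonempty J] (c : ℝ) (y : J → ℝ) (A : J → Bool) :
    min (∑ j, if A j then y j ^ 2 else 0) (∑ j, if A j then 0 else y j ^ 2) ≤ 192 * eta c y := by
  obtain ⟨k, hk⟩ := cube_b c y
  rw [← Finset.add_sum_erase _ _ (Finset.mem_univ k)] at hk
  by_cases h : A k = true
  · apply (min_le_right _ _).trans
    rw [← Finset.add_sum_erase _ _ (Finset.mem_univ k), if_pos h]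
    have h2 : ∑ j ∈ Finset.univ.erase k, (if A j then 0 else y j ^ 2) ≤
        ∑ j ∈ Finset.univ.erase k, y j ^ 2 := by
      apply Finset.sum_le_sum
      intro j _
      split_ifs
      · positivity
      · exact le_rfl
    linarith
  · apply (min_le_left _ _).trans
    rw [← Finset.add_sum_erase _ _ (Finset.mem_univ k), if_neg h]
    have h2 : ∑ j ∈ Finset.univ.erase k, (if A j then y j ^ 2 else 0) ≤
        ∑ j ∈ Finset.univ.erase k, y j ^ 2 := by
      apply Finset.sum_le_sum
      intro j _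
      split_ifs
      · exact le_rfl
      · positivity
    linarith

end Pool.Agent.R21.OA
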