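import Pool.Agent.R21.OA.Cube

/-!
# Boolean functions on product spaces close to sums of functions of one coordinate
-/

set_option autoImplicit false
set_option linter.unusedSectionVars false

namespace Pool.Agent.R21.OA

variable {J : Type} [Fintype J] [DecidableEq J] {Ω : J → Type} [∀ j, Fintype (Ω j)]
  [∀ j, Nonempty (Ω j)]

/-- the conditional expectation given one coordinate -/
noncomputable def cond (F : (∀ j, Ω j) → ℝ) (j : J) (a : Ω j) : ℝ :=
  E (fun x => F (Function.update x j a))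

theorem cond_spec (F : (∀ j, Ω j) → ℝ) (j : J) (g : Ω j → ℝ) :
    E (fun x : (∀ j, Ω j) => cond F j (x j) * g (x j)) = E (fun x => F x * g (x j)) := by
  rw [← E_mix (fun k => decide (k = j)) (fun x => F x * g (x j)), E_prod]
  congr 1
  funext x
  unfold cond
  rw [← E_mul_right]
  congr 1
  funext x'
  have e : mix (fun k => decide (k = j)) x x' = Function.update x' j (x j) := by
    funext k
    by_cases hk : k = j
    · subst hk
      simp [mix]
    · simp [mix, hk]
  rw [e, Function.update_self]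

/-- the part which depends on the coordinate `j` -/
noncomputable def G (F : (∀ j, Ω j) → ℝ) (j : J) (a : Ω j) : ℝ := cond F j a - E F

/-- the projection to the sums of functions of one coordinate -/
noncomputable def F0 (F : (∀ j, Ω j) → ℝ) (x : ∀ j, Ω j) : ℝ := E F + ∑ j, G F j (x j)

theorem E_cond (F : (∀ j, Ω j) → ℝ) (j : J) : E (fun x : (∀ j, Ω j) => cond F j (x j)) = E F := by
  have h := cond_spec F j (fun _ => 1)
  simpa using h

theorem E_G (F : (∀ j, Ω j) → ℝ) (j : J) : E (fun x : (∀ j, Ω j) => G F j (x j)) = 0 := by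
  unfold G
  rw [E_sub, E_cond, E_const, sub_self]

theorem cond_nonneg {F : (∀ j, Ω j) → ℝ} (hF : ∀ x, 0 ≤ F x) (j : J) (a : Ω j) : 0 ≤ cond F j a :=
  E_nonneg fun _ => hF _

theorem cond_le_one {F : (∀ j, Ω j) → ℝ} (hF : ∀ x, F x ≤ 1) (j : J) (a : Ω j) :
    cond F j a ≤ 1 := by
  have h := E_mono (f := fun x : (∀ j, Ω j) => F (Function.update x j a)) (g := fun _ => 1)
    fun _ => hF _
  rwa [E_const] at h

/-- orthogonality -/
theorem orth_coord [Nonempty J] (F : (∀ j, Ω j) → ℝ) (j : J) (g : Ω j → ℝ) :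
    E (fun x => (F x - F0 F x) * g (x j)) = 0 := by
  have h1 : ∀ x : (∀ j, Ω j), (F x - F0 F x) * g (x j) =
      F x * g (x j) - (E F * g (x j) + ∑ i, G F i (x i) * g (x j)) := by
    intro x
    unfold F0
    rw [← Finset.sum_mul]
    ring
  simp only [h1]
  rw [E_sub, E_add, E_sum, Finset.sum_eq_single j, ← cond_spec]
  · unfold G
    have h2 : ∀ x : (∀ j, Ω j), (cond F j (x j) - E F) * g (x j) =
        cond F j (x j) * g (x j) - E F * g (x j) := fun x => by ring
    simp only [h2]
    rw [E_sub]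
    ring
  · intro i _ hij
    rw [indep_pair hij, E_G, zero_mul]
  · intro h
    exact absurd (Finset.mem_univ j) h

/-! ### Hybrids -/

/-- the differences -/
noncomputable def dif (F : (∀ j, Ω j) → ℝ) (z : (∀ j, Ω j) × (∀ j, Ω j)) (j : J) : ℝ :=
  cond F j (z.1 j) - cond F j (z.2 j)

/-- the centre -/
noncomputable def cen (F : (∀ j, Ω j) → ℝ) (z : (∀ j, Ω j) × (∀ j, Ω j)) : ℝ :=
  E F + (1 / 2) * ∑ j, (G F j (z.1 j) + G F j (z.2 j))

theorem F0_mix (F : (∀ j, Ω j) → ℝ) (r : J → Bool) (z : (∀ j, Ω j) × (∀ j, Ω j)) :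
    F0 F (mix r z.1 z.2) = cen F z + (1 / 2) * ∑ j, sg (r j) * dif F z j := by
  unfold F0 cen
  rw [add_assoc, ← mul_add, ← Finset.sum_add_distrib, Finset.mul_sum]
  congr 1
  apply Finset.sum_congr rfl
  intro j _
  unfold dif G mix
  cases r j <;> simp [sg] <;> ring

theorem abs_dif_le {F : (∀ j, Ω j) → ℝ} (hF0 : ∀ x, 0 ≤ F x) (hF1 : ∀ x, F x ≤ 1)
    (z : (∀ j, Ω j) × (∀ j, Ω j)) (j : J) : |dif F z j| ≤ 1 := by
  unfold dif
  rw [abs_le]
  have h1 := cond_nonneg hF0 j (z.1 j)
  have h2 := cond_nonneg hF0 j (z.2 j)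
  have h3 := cond_le_one hF1 j (z.1 j)
  have h4 := cond_le_one hF1 j (z.2 j)
  constructor <;> linarith

/-- the squared distance of `F` to the sums of functions of one coordinate -/
noncomputable def del (F : (∀ j, Ω j) → ℝ) : ℝ := E (fun x => (F x - F0 F x) ^ 2)

theorem del_nonneg (F : (∀ j, Ω j) → ℝ) : 0 ≤ del F := E_nonneg fun _ => sq_nonneg _

theorem E_eta_le (F : (∀ j, Ω j) → ℝ) (hF : ∀ x, F x = 0 ∨ F x = 1) :
    E (fun z : (∀ j, Ω j) × (∀ j, Ω j) => eta (cen F z) (dif F z)) ≤ del F := by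
  unfold eta
  simp only [← F0_mix]
  rw [E_swap]
  have h1 : ∀ r : J → Bool, E (fun z : (∀ j, Ω j) × (∀ j, Ω j) => D (F0 F (mix r z.1 z.2)) ^ 2) =
      E (fun x => D (F0 F x) ^ 2) := fun r => E_mix r (fun x => D (F0 F x) ^ 2)
  simp only [h1]
  rw [E_const]
  apply E_mono
  intro x
  have h0 := D_nonneg (F0 F x)
  rcases hF x with h | h
  · rw [h, zero_sub, neg_sq, ← sq_abs (F0 F x)]
    exact pow_le_pow_left₀ h0 (D_le_zero _) 2
  · rw [h, ← neg_sub, neg_sq, ← sq_abs (F0 F x - 1)]
    exact pow_le_pow_left₀ h0 (D_le_one _) 2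

section consequences

variable [Nonempty J] {F : (∀ j, Ω j) → ℝ} (hF : ∀ x, F x = 0 ∨ F x = 1)

include hF

theorem F_nonneg (x : ∀ j, Ω j) : 0 ≤ F x := by
  rcases hF x with h | h <;> rw [h]
  norm_num

theorem F_le_one (x : ∀ j, Ω j) : F x ≤ 1 := by
  rcases hF x with h | h <;> rw [h]
  norm_num

/-- (2.1) -/
theorem sum_phi : ∑ j, E (fun z : (∀ j, Ω j) × (∀ j, Ω j) => phi (dif F z j)) ≤ 196 * del F := by
  rw [← E_sum]
  have h1 := E_mono (f := fun z : (∀ j, Ω j) × (∀ j, Ω j) => ∑ j, phi (dif F z j))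
    (g := fun z => 196 * eta (cen F z) (dif F z)) fun z =>
    cube_phi _ _ (abs_dif_le (F_nonneg hF) (F_le_one hF) z)
  rw [E_mul_left] at h1
  have h2 := E_eta_le F hF
  linarith

/-- (2.2) -/
theorem count_le : E (fun z : (∀ j, Ω j) × (∀ j, Ω j) =>
    max ((∑ j, if 1 / 2 ≤ |dif F z j| then (1 : ℝ) else 0) - 1) 0) ≤ 768 * del F := by
  have h1 := E_mono (f := fun z : (∀ j, Ω j) × (∀ j, Ω j) =>
    max ((∑ j, if 1 / 2 ≤ |dif F z j| then (1 : ℝ) else 0) - 1) 0)
    (g := fun z => 768 * eta (cen F z) (dif F z)) fun z => cube_count _ _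
  rw [E_mul_left] at h1
  have h2 := E_eta_le F hF
  linarith

/-- (2.3) -/
theorem min_le (A : J → Bool) : E (fun z : (∀ j, Ω j) × (∀ j, Ω j) =>
    min (∑ j, if A j then dif F z j ^ 2 else 0) (∑ j, if A j then 0 else dif F z j ^ 2)) ≤
    192 * del F := by
  have h1 := E_mono (f := fun z : (∀ j, Ω j) × (∀ j, Ω j) =>
    min (∑ j, if A j then dif F z j ^ 2 else 0) (∑ j, if A j then 0 else dif F z j ^ 2))
    (g := fun z => 192 * eta (cen F z) (dif F z)) fun z => cube_min _ _ A
  rw [E_mul_left] at h1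
  have h2 := E_eta_le F hF
  linarith

end consequences

/-! ### Independent variables with values in `[0, 1]` -/

/-- the second moment of a sum of some independent variables with values in `[0, 1]` -/
theorem moment_le (Y : ∀ j, Ω j → ℝ) (hY0 : ∀ j a, 0 ≤ Y j a) (hY1 : ∀ j a, Y j a ≤ 1)
    (A : J → Bool) :
    E (fun x : (∀ j, Ω j) => (∑ j, if A j then Y j (x j) else 0) ^ 2) ≤
      (∑ j, if A j then E (fun x : (∀ j, Ω j) => Y j (x j)) else 0) ^ 2 +
      ∑ j, if A j then E (fun x : (∀ j, Ω j) => Y j (x j)) else 0 := by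
  set m : J → ℝ := fun j => E (fun x : (∀ j, Ω j) => Y j (x j)) with hm
  set w : ∀ j, Ω j → ℝ := fun j a => if A j then Y j a - m j else 0 with hw
  have h0 : ∀ j, E (fun x : (∀ j, Ω j) => w j (x j)) = 0 := by
    intro j
    simp only [hw]
    by_cases h : A j = true
    · simp only [if_pos h]
      rw [E_sub, E_const]
      simp only [hm]
      rw [sub_self]
    · simp only [if_neg h]
      exact E_const 0
  have h1 := second_moment Finset.univ w fun j _ => h0 j
  have h2 : ∀ j, E (fun x : (∀ j, Ω j) => w j (x j) ^ 2) ≤ if A j then m j else 0 := by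
    intro j
    simp only [hw]
    by_cases h : A j = true
    · simp only [if_pos h]
      have h3 : ∀ x : (∀ j, Ω j), (Y j (x j) - m j) ^ 2 =
          Y j (x j) ^ 2 - (2 * m j) * Y j (x j) + m j ^ 2 := fun x => by ring
      simp only [h3]
      rw [E_add, E_sub, E_mul_left, E_const]
      have h4 : E (fun x : (∀ j, Ω j) => Y j (x j) ^ 2) ≤ m j := by
        apply E_mono
        intro x
        have := hY0 j (x j)
        have := hY1 j (x j)
        nlinarith
      have h5 : E (fun x : (∀ j, Ω j) => Y j (x j)) = m j := rfl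
      rw [h5]
      nlinarith [sq_nonneg (m j)]
    · simp only [if_neg h]
      rw [show (0 : ℝ) ^ 2 = 0 by norm_num, E_const]
  have h3 : ∀ x : (∀ j, Ω j), (∑ j, if A j then Y j (x j) else 0) =
      (∑ j, w j (x j)) + ∑ j, if A j then m j else 0 := by
    intro x
    rw [← Finset.sum_add_distrib]
    apply Finset.sum_congr rfl
    intro j _
    simp only [hw]
    split_ifs <;> ring
  simp only [h3]
  set a := ∑ j, if A j then m j else 0 with ha
  have h4 : ∀ x : (∀ j, Ω j), ((∑ j, w j (x j)) + a) ^ 2 =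
      (∑ j, w j (x j)) ^ 2 + (∑ j, w j (x j)) * (2 * a) + a ^ 2 := fun x => by ring
  simp only [h4]
  rw [E_add, E_add, E_mul_right, E_const, h1, E_sum]
  simp only [h0, Finset.sum_const_zero, zero_mul, add_zero]
  have h5 := Finset.sum_le_sum fun j (_ : j ∈ Finset.univ) => h2 j
  linarith

/-- if one side of every partition is small, then the product of the means is small -/
theorem prod_le (Y : ∀ j, Ω j → ℝ) (hY0 : ∀ j a, 0 ≤ Y j a) (hY1 : ∀ j a, Y j a ≤ 1)
    (A : J → Bool) (M : ℝ)
    (hM : E (fun x : (∀ j, Ω j) => min (∑ j, if A j then Y j (x j) else 0)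
      (∑ j, if A j then 0 else Y j (x j))) ≤ M) :
    (∑ j, if A j then E (fun x : (∀ j, Ω j) => Y j (x j)) else 0) *
      (∑ j, if A j then 0 else E (fun x : (∀ j, Ω j) => Y j (x j))) ≤
      ((∑ j, E (fun x : (∀ j, Ω j) => Y j (x j))) + 2) * M := by
  set m : J → ℝ := fun j => E (fun x : (∀ j, Ω j) => Y j (x j)) with hm
  have hm0 : ∀ j, 0 ≤ m j := fun j => E_nonneg fun _ => hY0 _ _
  have hA := moment_le Y hY0 hY1 A
  have hB := moment_le Y hY0 hY1 (fun j => !A j)
  have flipIf : ∀ (b : Bool) (t : ℝ), (if (!b) = true then t else 0) = if b = true then 0 else t := by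
    intro b t
    cases b <;> simp
  simp only [flipIf] at hB
  change _ ≤ (∑ j, if A j then m j else 0) ^ 2 + ∑ j, (if A j then m j else 0) at hA
  change _ ≤ (∑ j, if A j then 0 else m j) ^ 2 + ∑ j, (if A j then 0 else m j) at hB
  have hs : ∑ j, m j = (∑ j, if A j then m j else 0) + ∑ j, if A j then 0 else m j := by
    rw [← Finset.sum_add_distrib]
    apply Finset.sum_congr rfl
    intro j _
    split_ifs <;> ring
  have ha0 : 0 ≤ ∑ j, if A j then m j else 0 :=
    Finset.sum_nonneg fun j _ => by split_ifs; exacts [hm0 j, le_rfl]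
  have hb0 : 0 ≤ ∑ j, if A j then 0 else m j :=
    Finset.sum_nonneg fun j _ => by split_ifs; exacts [le_rfl, hm0 j]
  set XA : (∀ j, Ω j) → ℝ := fun x => ∑ j, if A j then Y j (x j) else 0 with hXA
  set XB : (∀ j, Ω j) → ℝ := fun x => ∑ j, if A j then 0 else Y j (x j) with hXB
  have hXA0 : ∀ x, 0 ≤ XA x := fun x =>
    Finset.sum_nonneg fun j _ => by split_ifs; exacts [hY0 _ _, le_rfl]
  have hXB0 : ∀ x, 0 ≤ XB x := fun x =>
    Finset.sum_nonneg fun j _ => by split_ifs; exacts [le_rfl, hY0 _ _]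
  have EA : E XA = ∑ j, if A j then m j else 0 := by
    simp only [hXA]
    rw [E_sum]
    apply Finset.sum_congr rfl
    intro j _
    split_ifs
    · rfl
    · exact E_const 0
  have EB : E XB = ∑ j, if A j then 0 else m j := by
    simp only [hXB]
    rw [E_sum]
    apply Finset.sum_congr rfl
    intro j _
    split_ifs
    · exact E_const 0
    · rfl
  change E (fun x => XA x ^ 2) ≤ _ at hA
  change E (fun x => XB x ^ 2) ≤ _ at hB
  have dA : ∀ x z : (∀ j, Ω j), (∀ j, A j = true → x j = z j) → XA x = XA z := by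
    intro x z h
    simp only [hXA]
    apply Finset.sum_congr rfl
    intro j _
    by_cases hj : A j = true
    · rw [h j hj]
    · rw [if_neg hj, if_neg hj]
  have dB : ∀ x z : (∀ j, Ω j), (∀ j, A j = false → x j = z j) → XB x = XB z := by
    intro x z h
    simp only [hXB]
    apply Finset.sum_congr rfl
    intro j _
    by_cases hj : A j = true
    · rw [if_pos hj, if_pos hj]
    · rw [h j (by simpa using hj)]
  have m11 : E (fun x => XA x * XB x) = E XA * E XB := indep A XA XB dA dB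
  have m21 : E (fun x => XA x ^ 2 * XB x) = E (fun x => XA x ^ 2) * E XB :=
    indep A (fun x => XA x ^ 2) XB (fun x z h => by rw [dA x z h]) dB
  have m12 : E (fun x => XA x * XB x ^ 2) = E XA * E (fun x => XB x ^ 2) :=
    indep A XA (fun x => XB x ^ 2) dA (fun x z h => by rw [dB x z h])
  change E (fun x => min (XA x) (XB x)) ≤ M at hM
  rw [hs]
  rw [EA, EB] at m11
  rw [EB] at m21
  rw [EA] at m12
  generalize (∑ j, if A j then m j else 0) = a at *
  generalize (∑ j, if A j then 0 else m j) = b at *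
  set t : ℝ := 1 / (a + b + 2) with ht
  have hab : 0 < a + b + 2 := by linarith
  have ht0 : 0 ≤ t := by positivity
  have htT : t * (a + b + 2) = 1 := by
    rw [ht]
    field_simp
  have hlow : ∀ x, 2 * t * (XA x * XB x) - t ^ 2 * (XA x ^ 2 * XB x + XA x * XB x ^ 2) ≤
      min (XA x) (XB x) := by
    intro x
    have h1 := min_lower (hXA0 x) (hXB0 x) ht0
    calc _ = 2 * t * (XA x * XB x) - t ^ 2 * (XA x * XB x * (XA x + XB x)) := by ring
      _ ≤ _ := h1
  have h2 := E_mono hlow
  rw [E_sub, E_mul_left, E_mul_left, E_add, m11, m21, m12] at h2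
  have h3 : t ^ 2 * (E (fun x => XA x ^ 2) * b + a * E (fun x => XB x ^ 2)) ≤
      t ^ 2 * ((a ^ 2 + a) * b + a * (b ^ 2 + b)) :=
    mul_le_mul_of_nonneg_left (add_le_add (mul_le_mul_of_nonneg_right hA hb0)
      (mul_le_mul_of_nonneg_left hB ha0)) (sq_nonneg t)
  have h5 : t ^ 2 * ((a ^ 2 + a) * b + a * (b ^ 2 + b)) = t * (a * b) := by
    calc t ^ 2 * ((a ^ 2 + a) * b + a * (b ^ 2 + b)) = (t * (a + b + 2)) * (t * (a * b)) := by ring
      _ = _ := by rw [htT, one_mul]
  rw [h5] at h3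
  have h6 : t * (a * b) ≤ M := by linarith
  have h7 := mul_le_mul_of_nonneg_left h6 hab.le
  have h8 : (a + b + 2) * (t * (a * b)) = a * b := by
    calc (a + b + 2) * (t * (a * b)) = (t * (a + b + 2)) * (a * b) := by ring
      _ = _ := by rw [htT, one_mul]
  rw [h8] at h7
  exact h7

end Pool.Agent.R21.OA
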